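import Pool.Agent.KS6_77.TauReg.Main

set_option autoImplicit false

namespace Pool.Agent.Results.MP_8f5cd4_gt.RegularSpaces

open Filter Topology Set

universe u

variable {X : Type u} [TopologicalSpace X]

/-- open `ω`-cover: open sets, the whole space is not a member, every finite set lies in a member -/
def IsOmega (𝓤 : Set (Set X)) : Prop :=
  (∀ U ∈ 𝓤, IsOpen U) ∧ univ ∉ 𝓤 ∧ ∀ F : Finset X, ∃ U ∈ 𝓤, (F : Set X) ⊆ U

/-- open `γ`-cover: infinitely many open sets, none of them the whole space, every point lies in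
all but finitely many members -/
def IsGamma (𝓤 : Set (Set X)) : Prop :=
  (∀ U ∈ 𝓤, IsOpen U) ∧ univ ∉ 𝓤 ∧ 𝓤.Infinite ∧ ∀ x : X, {U ∈ 𝓤 | x ∉ U}.Finite

/-- open `τ`-cover: open sets, the whole space is not a member, every point lies in infinitely many
members, and for two points `x`, `y` only finitely many members contain `x` and not `y`, or
only finitely many contain `y` and not `x` -/
def IsTau (𝓤 : Set (Set X)) : Prop :=
  (∀ U ∈ 𝓤, IsOpen U) ∧ univ ∉ 𝓤 ∧ (∀ x : X, {U ∈ 𝓤 | x ∈ U}.Infinite) ∧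
    ∀ x y : X, {U ∈ 𝓤 | x ∈ U ∧ y ∉ U}.Finite ∨ {U ∈ 𝓤 | y ∈ U ∧ x ∉ U}.Finite

/-- the selection principle `S₁(A, B)` -/
def S1 (A B : Set (Set X) → Prop) : Prop :=
  ∀ 𝓤 : ℕ → Set (Set X), (∀ n, A (𝓤 n)) →
    ∃ f : ℕ → Set X, (∀ n, f n ∈ 𝓤 n) ∧ B (range f)

/-- the Hurewicz property -/
def Hurewicz (X : Type u) [TopologicalSpace X] : Prop :=
  ∀ 𝓤 : ℕ → Set (Set X), (∀ n, (∀ V ∈ 𝓤 n, IsOpen V) ∧ ⋃₀ 𝓤 n = univ) →
    ∃ F : ℕ → Finset (Set X), (∀ n, (F n : Set (Set X)) ⊆ 𝓤 n) ∧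
      ∀ x : X, ∀ᶠ n in atTop, x ∈ ⋃₀ (F n : Set (Set X))

section aux

open Pool.Agent.Lib.helper32.Tau Pool.Agent.KS6_77.TauReg

theorem ga_iff (𝓤 : Set (Set X)) : Ga 𝓤 ↔ IsGamma 𝓤 := by
  constructor
  · rintro ⟨⟨h1, -, h2⟩, h3, h4⟩
    exact ⟨h1, h2, h3, h4⟩
  · rintro ⟨h1, h2, h3, h4⟩
    exact ⟨⟨h1, cov_of_large (ga_large h3 h4), h2⟩, h3, h4⟩

theorem ta_iff (𝓤 : Set (Set X)) : Ta 𝓤 ↔ IsTau 𝓤 := by
  constructor
  · rintro ⟨⟨h1, -, h2⟩, h3, h4⟩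
    exact ⟨h1, h2, h3, h4⟩
  · rintro ⟨h1, h2, h3, h4⟩
    exact ⟨⟨h1, cov_of_large h3, h2⟩, h3, h4⟩

theorem s1_ga_ta : Pool.Agent.Lib.helper32.Tau.S1 (Z := X) Ga Ta ↔ S1 (X := X) IsGamma IsTau := by
  have e1 : (Ga : Set (Set X) → Prop) = IsGamma := funext fun 𝓤 => propext (ga_iff 𝓤)
  have e2 : (Ta : Set (Set X) → Prop) = IsTau := funext fun 𝓤 => propext (ta_iff 𝓤)
  rw [e1, e2]
  rfl

theorem s1_ga_ga : Pool.Agent.Lib.helper32.Tau.S1 (Z := X) Ga Ga ↔ S1 (X := X) IsGamma IsGamma := by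
  have e1 : (Ga : Set (Set X) → Prop) = IsGamma := funext fun 𝓤 => propext (ga_iff 𝓤)
  rw [e1]
  rfl

theorem gamma_omega {𝓤 : Set (Set X)} (h : IsGamma 𝓤) : IsOmega 𝓤 := by
  have := ga_om ((ga_iff 𝓤).2 h)
  exact ⟨h.1, h.2.1, this.2⟩

theorem gamma_tau {𝓤 : Set (Set X)} (h : IsGamma 𝓤) : IsTau 𝓤 :=
  (ta_iff 𝓤).1 (ga_ta ((ga_iff 𝓤).2 h))

/-- `S₁(Ω,T)` implies the Lindelöf property -/
theorem lindelof_of_omega_tau (h : S1 (X := X) IsOmega IsTau) : LindelofSpace X := by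
  refine ⟨isLindelof_of_countable_subcover fun {ι} U hUo hU => ?_⟩
  by_contra hcon
  push Not at hcon
  let 𝓥 : Set (Set X) := {V | ∃ s : Finset ι, V = ⋃ i ∈ s, U i}
  have h𝓥 : IsOmega 𝓥 := by
    refine ⟨?_, ?_, ?_⟩
    · rintro _ ⟨s, rfl⟩
      exact isOpen_biUnion fun i _ => hUo i
    · rintro ⟨s, hs⟩
      exact hcon (s : Set ι) s.countable_toSet (by simpa using hs.subset)
    · intro F
      choose i hi using fun x : X => mem_iUnion.1 (hU (mem_univ x))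
      classical
      refine ⟨_, ⟨F.image i, rfl⟩, fun x hx => ?_⟩
      exact mem_iUnion₂.2 ⟨i x, Finset.mem_image_of_mem _ hx, hi x⟩
  obtain ⟨f, hf1, hf2⟩ := h (fun _ => 𝓥) fun _ => h𝓥
  choose s hs using hf1
  refine hcon (⋃ n, (s n : Set ι)) (countable_iUnion fun n => (s n).countable_toSet) fun x _ => ?_
  obtain ⟨W, ⟨n, rfl⟩, hW⟩ := (hf2.2.2.1 x).nonempty
  rw [hs n] at hW
  obtain ⟨i, hi, hxi⟩ := mem_iUnion₂.1 hW
  exact mem_iUnion₂.2 ⟨i, mem_iUnion.2 ⟨n, hi⟩, hxi⟩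

end aux

/-- **`S₁(Ω,T)` implies the Hurewicz property in every regular space.**
For every regular topological space `X` (no separation axiom `T₀`, no countability assumption):
1. if `X` satisfies `S₁(Ω,T)`, then `X` is Lindelöf, satisfies `S₁(Γ,Γ)` and has the Hurewicz
   property;
2. if `X` is Lindelöf, then `S₁(Γ,T)` and `S₁(Γ,Γ)` are equivalent for `X`, and either of them
   implies the Hurewicz property. -/
theorem result (X : Type u) [TopologicalSpace X] [RegularSpace X] :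
    (S1 (X := X) IsOmega IsTau →
      LindelofSpace X ∧ S1 (X := X) IsGamma IsGamma ∧ Hurewicz X) ∧
    (LindelofSpace X →
      (S1 (X := X) IsGamma IsTau ↔ S1 (X := X) IsGamma IsGamma) ∧
      (S1 (X := X) IsGamma IsTau → Hurewicz X)) := by
  have key : LindelofSpace X → S1 (X := X) IsGamma IsTau →
      S1 (X := X) IsGamma IsGamma ∧ Hurewicz X := by
    intro hL h
    have hsg := Pool.Agent.KS6_77.TauReg.sg_of_regular (s1_ga_ta.2 h)
    exact ⟨s1_ga_ga.1 (Pool.Agent.Lib.helper32.Tau.sg_s1 hsg),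
      Pool.Agent.KS6_77.TauReg.sg_hur' hsg⟩
  refine ⟨fun h => ?_, fun hL => ⟨⟨fun h => (key hL h).1, fun h 𝓤 h𝓤 => ?_⟩,
    fun h => (key hL h).2⟩⟩
  · have hL := lindelof_of_omega_tau h
    exact ⟨hL, key hL fun 𝓤 h𝓤 => h 𝓤 fun n => gamma_omega (h𝓤 n)⟩
  · obtain ⟨f, h1, h2⟩ := h 𝓤 h𝓤
    exact ⟨f, h1, gamma_tau h2⟩

end Pool.Agent.Results.MP_8f5cd4_gt.RegularSpaces
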